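import Pool.Agent.Helper2_TMP.StG

/-!
# The theorem at infinity: FINI from CHI, LOCF, MVI and TRV
-/

open scoped BigOperators

namespace Pool.Agent.DEN.TMP.H70

open Pool.Agent.DEN Pool.Agent.DEN.TMP

/-- The numerical part of the count. -/
theorem num_count (n M : ℕ) (a : Fin n → Fin M → ℝ) (B : ℝ) (s : Fin M → ℝ) (c m D : ℕ)
    (hm : 1 ≤ m) (hB : 0 ≤ B) (hdet : ∀ j, ∃ i, 1 ≤ a j i)
    (hmv : ∀ i, ∑ j, a j i ^ 2 ≤ B * s i) (hs : ∑ i, s i ≤ (c : ℝ) / m) (X : ℕ)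
    (hD : D ≤ X * m) :
    (n * D : ℝ) ≤ B * (c * X) := by
  have h1 : (n : ℝ) ≤ ∑ j : Fin n, ∑ i, a j i ^ 2 := by
    calc (n : ℝ) = ∑ _j : Fin n, (1 : ℝ) := by simp
      _ ≤ _ := Finset.sum_le_sum fun j _ => by
        obtain ⟨i, hi⟩ := hdet j
        have h2 : (1 : ℝ) ≤ a j i ^ 2 := by nlinarith
        exact h2.trans (Finset.single_le_sum (f := fun i => a j i ^ 2)
          (fun i _ => sq_nonneg _) (Finset.mem_univ i))
  have h2 : ∑ j : Fin n, ∑ i, a j i ^ 2 ≤ B * ((c : ℝ) / m) := by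
    rw [Finset.sum_comm]
    calc ∑ i, ∑ j : Fin n, a j i ^ 2 ≤ ∑ i, B * s i := Finset.sum_le_sum fun i _ => hmv i
      _ = B * ∑ i, s i := by rw [Finset.mul_sum]
      _ ≤ _ := mul_le_mul_of_nonneg_left hs hB
  have hm0 : (0 : ℝ) < m := by
    have : 0 < m := by omega
    exact_mod_cast this
  have hD' : (D : ℝ) ≤ X * m := by exact_mod_cast hD
  have h3 : (n : ℝ) ≤ B * ((c : ℝ) / m) := h1.trans h2
  calc (n * D : ℝ) ≤ (B * ((c : ℝ) / m)) * (X * m) :=
        mul_le_mul h3 hD' (Nat.cast_nonneg _) (by positivity)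
    _ = B * (c * X) := by field_simp

theorem fini (hChi : ChiStmt) (hLocf : LocfStmt) (hMvi : MviStmt) (hTrv : TrvStmt) :
    FiniStmt := by
  classical
  intro r C hC hr
  obtain ⟨c, hc0, hloc⟩ := hLocf r C hC
  refine ⟨3 ^ r * (c * (8 * c + 4) + 4 * c + 4), ?_⟩
  intro K _ _ N hN n f hcusp horth heig hnt
  have hI0 : (0 : ℝ) ≤ ((cong C K 1 N).relIndex (arith C K 1) : ℕ) := Nat.cast_nonneg _
  by_cases hsmall : N.natDegree < 4 * c + 4
  · by_cases h0 : N.natDegree = 0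
    · rw [h0]
      simp only [Nat.cast_zero, mul_zero]
      positivity
    · have h1 := hTrv r C hC K hr N (Nat.pos_of_ne_zero h0) n f hcusp horth
      have h2 : (N.natDegree : ℝ) ≤ ((c * (8 * c + 4) + 4 * c + 4 : ℕ) : ℝ) := by
        have h3 : N.natDegree ≤ c * (8 * c + 4) + 4 * c + 4 := by omega
        exact_mod_cast h3
      calc (n * N.natDegree : ℝ) ≤ (3 ^ r * ((cong C K 1 N).relIndex (arith C K 1) : ℕ)) *
            ((c * (8 * c + 4) + 4 * c + 4 : ℕ) : ℝ) :=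
            mul_le_mul h1 h2 (Nat.cast_nonneg _) (by positivity)
        _ = _ := by push_cast; ring
  · push Not at hsmall
    obtain ⟨m, hm⟩ : ∃ m, m = (N.natDegree - 4) / (4 * c) := ⟨_, rfl⟩
    have hc4 : 0 < 4 * c := by omega
    have hm1 : 1 ≤ m := by
      rw [hm, Nat.le_div_iff_mul_le hc4]
      omega
    have hmR : 4 * (c * m) + 4 ≤ N.natDegree := by
      have h := Nat.div_mul_le_self (N.natDegree - 4) (4 * c)
      rw [← hm] at h
      have h' : m * (4 * c) = 4 * (c * m) := by ring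
      omega
    have hmD : N.natDegree ≤ (8 * c + 4) * m := by
      have h := Nat.lt_mul_div_succ (N.natDegree - 4) hc4
      rw [← hm] at h
      have h' : 4 * c * (m + 1) = 4 * c * m + 4 * c := by ring
      have h'' : 4 * c * 1 ≤ 4 * c * m := Nat.mul_le_mul_left _ hm1
      have h3 : (8 * c + 4) * m = 4 * c * m + 4 * c * m + 4 * m := by ring
      omega
    obtain ⟨M, κ, hκ1, hκ2, hκ3⟩ := hloc K m (by omega)
    have hχ : ∀ j, ∃ lam : (grp C K → ℂ) → ℂ, IsChr (maxK C K) lam ∧ IsHer (maxK C K) lam ∧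
      (∀ κ, Hk (maxK C K) κ → ∃ R, HeckeInf κ R) ∧
      (∀ κ, Hk (maxK C K) κ → EigenInf κ (lam κ) (f j)) ∧
      (IsTmp (maxK C K) lam → TemperedInf (f j)) := fun j =>
      hChi r C hC K N hN (f j) (hcusp j) (by rw [horth, if_pos rfl]) (heig j)
    choose lam hl1 hl2 hl3 hl4 hl5 using hχ
    have hmv : ∀ i, ∑ j, ‖lam j (κ i)‖ ^ 2 ≤
        (3 ^ r * ((cong C K 1 N).relIndex (arith C K 1) : ℕ)) * normSq (maxK C K) (κ i) :=
      fun i => hMvi r C hC K hr N hN n f hcusp horth (c * m) hmR (κ i) (hκ1 i)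
        (fun j => lam j (κ i)) (fun j => hl4 j (κ i) ⟨(hκ1 i).1, (hκ1 i).2.1⟩)
    have h := num_count n M (fun j i => ‖lam j (κ i)‖)
      (3 ^ r * ((cong C K 1 N).relIndex (arith C K 1) : ℕ)) (fun i => normSq (maxK C K) (κ i))
      c m N.natDegree hm1 (by positivity)
      (fun j => hκ3 (lam j) (hl1 j) (hl2 j) (fun h => hnt j (hl5 j h))) hmv hκ2 (8 * c + 4) hmD
    refine h.trans ?_
    have h4 : (0 : ℝ) ≤ 3 ^ r * ((cong C K 1 N).relIndex (arith C K 1) : ℕ) * (4 * c + 4) := by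
      positivity
    push_cast
    push_cast at h4
    linarith

end Pool.Agent.DEN.TMP.H70
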