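import Pool.Agent.Helper2_TMP.StG
import Pool.Agent.Helper22_DEN4.Asm4

/-!
# Squad TMP, module MVF: the mean value bound at a finite place
-/

set_option autoImplicit false

open scoped BigOperators

namespace Pool.Agent.DEN.TMP.H70

open Pool.Agent.DEN Pool.Agent.DEN.H22 Pool.Agent.DEN.H224

theorem pow_le3 (q D a : ℕ) (hq : 2 ≤ q) (hD : 2 * a + 3 ≤ D) (r : ℕ) :
    (2 + (D : ℝ) / (q : ℝ) ^ (D - 1 - a)) ^ r ≤ 3 ^ r := by
  have hq0 : (0 : ℝ) < q := by
    have : 0 < q := by omega
    exact_mod_cast this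
  have h2 : (D : ℝ) / (q : ℝ) ^ (D - 1 - a) ≤ 1 := by
    rw [div_le_one (by positivity)]
    have h3 : D ≤ 2 ^ (D - 1 - a) := by
      obtain ⟨b, hb⟩ : ∃ b, D - 1 - a = b := ⟨_, rfl⟩
      rw [hb]
      have h4 : D ≤ 2 * b := by omega
      have h5 : ∀ b : ℕ, 2 ≤ b → 2 * b ≤ 2 ^ b := by
        intro b hb
        induction b, hb using Nat.le_induction with
        | base => norm_num
        | succ k hk ih => rw [pow_succ]; omega
      exact h4.trans (h5 b (by omega))
    have h6 : D ≤ q ^ (D - 1 - a) := h3.trans (Nat.pow_le_pow_left hq _)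
    exact_mod_cast h6
  apply pow_le_pow_left₀ (by positivity)
  linarith

theorem mvf : MvfStmt := by
  intro r C hC K _ _ hr N hN n f hcusp horth P hP hcop R hR κ hκ lam hlam
  obtain ⟨hκ1, hκ2, hκ3⟩ := hκ
  have hP0 : P ≠ 0 := by
    rintro rfl
    simp at hP
  have hq2 : 2 ≤ Nat.card K := Finite.one_lt_card
  have hone : ∀ j, petersson N (f j) (f j) = 1 := fun j => by rw [horth, if_pos rfl]
  have hNr := hNrm r C hC K P N hP0 hN hcop
  have hNr1 := hNrm r C hC K 1 N one_ne_zero hN isCoprime_one_left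
  obtain ⟨t1, t2, -, -⟩ := hTrf r C hC K P N hP0 hN hcop κ R ⟨hκ1, hκ2, hκ3⟩
  have hsup : (Function.support fun y : arith C K P ⧸ (arith C K 1).subgroupOf (arith C K P) =>
    κ y.out).Finite := hκ2
  obtain ⟨c', hd1, hd2, hd3, hd4⟩ := hKtr (grp C K) (arith C K P) (arith C K 1) (cong C K P N)
    (cong C K 1 N) hNr.2.1 (fun a ha => ha.1) hNr.2.2.1 (fun a ha => ha.1) hNr.2.2.2.1
    hNr.2.2.2.2.1 κ hκ1 (fun g => g.2.1) (fun y => κ y.out) hsup
  have hd3' : ∑ᶠ y, ‖c' y‖ ^ 2 = normSq ((arith C K 1).subgroupOf (arith C K P)) κ := hd3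
  have hS0 : 0 ≤ normSq ((arith C K 1).subgroupOf (arith C K P)) κ :=
    finsum_nonneg fun y => by positivity
  have hmain := hCn2 r C hC K hr N hN n f hcusp hone (fun j => ‖lam j‖ ^ 2)
    (fun j => by positivity) (normSq ((arith C K 1).subgroupOf (arith C K P)) κ) hS0
    (N.natDegree - 1 - 2 * (R * P.natDegree)) ?_
  · refine hmain.trans ?_
    have h1 := pow_le3 (Nat.card K) N.natDegree (2 * (R * P.natDegree)) hq2 (by omega) r
    exact mul_le_mul_of_nonneg_right (mul_le_mul_of_nonneg_right h1 (Nat.cast_nonneg _)) hS0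
  · intro γ hγ l g hg hl'
    have e0 : 2 * R * P.natDegree = 2 * (R * P.natDegree) := by ring
    have h1 := hThf2 r C hC K N hN n f hcusp horth P hP0 hcop R (by omega) c' hd1 ?_
      lam ?_ γ hγ l g hg hl'
    · have h2 : ((N.natDegree : ℤ) - 1 - (2 * R * P.natDegree : ℕ)) =
          ((N.natDegree - 1 - 2 * (R * P.natDegree) : ℕ) : ℤ) := by
        rw [e0]; omega
      rw [h2, hd3'] at h1
      exact h1
    · intro y hy
      refine ⟨y.out, (QuotientGroup.out_eq' y).symm, ?_⟩
      have h2 := hd2 y hy y.out (QuotientGroup.out_eq' y).symm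
      -- the representative of the class
      obtain ⟨b, hb⟩ : ∃ b : arith C K P, b = (QuotientGroup.mk ⟨(y.out : cong C K P N).1,
        (y.out : cong C K P N).2.1⟩ : arith C K P ⧸ (arith C K 1).subgroupOf (arith C K P)).out :=
        ⟨_, rfl⟩
      have h3 : κ b ≠ 0 := by rw [hb]; exact h2
      have h4 := out_mul_inv_mem ((arith C K 1).subgroupOf (arith C K P))
        (⟨(y.out : cong C K P N).1, (y.out : cong C K P N).2.1⟩ : arith C K P)
      rw [← hb] at h4
      have h5 : b.1⁻¹ * (y.out : cong C K P N).1 ∈ arith C K 1 := h4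
      obtain ⟨a, ha⟩ : ∃ a : grp C K, a = (y.out : cong C K P N).1 := ⟨_, rfl⟩
      rw [← ha] at h5
      have h6 := hκ3 b h3
      have b1 : itg P R b.1 := fun v hv => (h6 v hv).1
      have b2 : itg P R b.1⁻¹ := fun v hv => (h6 v hv).2
      have hl3 : itg P 0 (b.1⁻¹ * a) := fun v hv => by
        rw [pow_zero, one_smul]
        exact hNr1.2.2.2.2.2 _ h5 v hv
      have hl4 : itg P 0 (b.1⁻¹ * a)⁻¹ := fun v hv => by
        rw [pow_zero, one_smul]
        exact hNr1.2.2.2.2.2 _ (inv_mem h5) v hv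
      have h7 : itg P R a := by
        have h8 := itg_mul b1 hl3
        rw [add_zero, mul_inv_cancel_left] at h8
        exact h8
      have h9 : itg P R a⁻¹ := by
        have e1 : a⁻¹ = (b.1⁻¹ * a)⁻¹ * b.1⁻¹ := by group
        have := itg_mul hl4 b2
        rw [zero_add, ← e1] at this
        exact this
      rw [ha] at h7 h9
      exact fun v hv => ⟨h7 v hv, h9 v hv⟩
    · intro j x
      have h8 := hd4 1 (lam j) (fun F hF => ?_) (fun y => f j ((y.out.1)⁻¹ • x))
        (eigen_fin (H := cong C K P N) ((cong C K 1 N).subgroupOf (cong C K P N))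
          (fun δ : cong C K P N => κ ⟨δ.1, δ.2.1⟩) t1 (f j)
          (fun l hl y => (hcusp j).1 l.1 hl y) (lam j) (fun y => hlam j y) x)
      · rw [h8, pow_one]
        congr 1
        have h9 := out_mul_inv_mem ((cong C K 1 N).subgroupOf (cong C K P N)) (1 : cong C K P N)
        rw [mul_one] at h9
        exact (hcusp j).1 _ h9 x
      · rw [pow_one, ← hF (QuotientGroup.mk 1)]
        refine finsum_congr fun y => ?_
        have h4 := out_mul_inv_mem ((arith C K 1).subgroupOf (arith C K P)) (1 : arith C K P)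
        rw [mul_one] at h4
        rw [(hκ1 _ h4 y.out).1]

end Pool.Agent.DEN.TMP.H70
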